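import Mathlib

/-!
# There is no universal countable projective algebra of plane sets

Let `R` be the graph of `x ↦ x + 1` and `S` the graph of the identity. From the origin `X ∩ Y` the
operations lead to all the points `(n, 0)`: the point `(n + 1, 0)` is
`π₁ (S ∩ (X ⊗ π₂ (R ∩ ({(n, 0)} ⊗ Y))))`. If `T` is the set of the points `(n, 0)` with `n ∈ Z`, then the
set `Z` of natural numbers can be read off from the isomorphism type of the triple `(R, S, T)` in any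
projective algebra which contains it. A countable projective algebra contains only countably many
triples, but there are uncountably many sets `Z`.
-/

set_option autoImplicit false

namespace Pool.Agent.Results.MP_3db952_lc.NoUniversal

/-- The axis `X = {(x, 0)}` of the plane. -/
def axisX : Set (ℝ × ℝ) := {p | p.2 = 0}

/-- The axis `Y = {(0, y)}` of the plane. -/
def axisY : Set (ℝ × ℝ) := {p | p.1 = 0}

/-- `π₁(S) = {(x, 0) : ∃ y, (x, y) ∈ S}`. -/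
def proj1 (S : Set (ℝ × ℝ)) : Set (ℝ × ℝ) := {p | p.2 = 0 ∧ ∃ y : ℝ, (p.1, y) ∈ S}

/-- `π₂(S) = {(0, y) : ∃ x, (x, y) ∈ S}`. -/
def proj2 (S : Set (ℝ × ℝ)) : Set (ℝ × ℝ) := {p | p.1 = 0 ∧ ∃ x : ℝ, (x, p.2) ∈ S}

/-- The direct product `A ⊗ B = {(x, y) : (x, 0) ∈ A, (0, y) ∈ B}`, used for `A ⊆ X` and `B ⊆ Y`. -/
def dprod (A B : Set (ℝ × ℝ)) : Set (ℝ × ℝ) := {p | (p.1, (0 : ℝ)) ∈ A ∧ ((0 : ℝ), p.2) ∈ B}

/-- A projective algebra (two-dimensional, of plane sets): a nonempty family of subsets of the plane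
closed under finite unions, finite intersections, complement, `π₁`, `π₂` and the products `A ⊗ B` of
members `A ⊆ X` and `B ⊆ Y`. -/
structure IsProjectiveAlgebra (𝒜 : Set (Set (ℝ × ℝ))) : Prop where
  nonempty : 𝒜.Nonempty
  union : ∀ A ∈ 𝒜, ∀ B ∈ 𝒜, A ∪ B ∈ 𝒜
  inter : ∀ A ∈ 𝒜, ∀ B ∈ 𝒜, A ∩ B ∈ 𝒜
  compl : ∀ A ∈ 𝒜, Aᶜ ∈ 𝒜
  proj1_mem : ∀ A ∈ 𝒜, proj1 A ∈ 𝒜
  proj2_mem : ∀ A ∈ 𝒜, proj2 A ∈ 𝒜
  dprod_mem : ∀ A ∈ 𝒜, ∀ B ∈ 𝒜, A ⊆ axisX → B ⊆ axisY → dprod A B ∈ 𝒜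

/-- The map `φ` restricts to an isomorphism of the family `𝒜` onto the family `ℬ`: it is a bijection
which preserves the Boolean operations, `π₁`, `π₂` and `⊗`. -/
structure IsIso (𝒜 ℬ : Set (Set (ℝ × ℝ))) (φ : Set (ℝ × ℝ) → Set (ℝ × ℝ)) : Prop where
  bij : Set.BijOn φ 𝒜 ℬ
  union : ∀ A ∈ 𝒜, ∀ B ∈ 𝒜, φ (A ∪ B) = φ A ∪ φ B
  inter : ∀ A ∈ 𝒜, ∀ B ∈ 𝒜, φ (A ∩ B) = φ A ∩ φ B
  compl : ∀ A ∈ 𝒜, φ Aᶜ = (φ A)ᶜ
  map_proj1 : ∀ A ∈ 𝒜, φ (proj1 A) = proj1 (φ A)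
  map_proj2 : ∀ A ∈ 𝒜, φ (proj2 A) = proj2 (φ A)
  map_dprod : ∀ A ∈ 𝒜, ∀ B ∈ 𝒜, A ⊆ axisX → B ⊆ axisY → φ (dprod A B) = dprod (φ A) (φ B)

/-- `𝒜` is isomorphic to a subalgebra of `𝒰`. -/
def Embeds (𝒜 𝒰 : Set (Set (ℝ × ℝ))) : Prop :=
  ∃ ℬ : Set (Set (ℝ × ℝ)), ℬ ⊆ 𝒰 ∧ IsProjectiveAlgebra ℬ ∧ ∃ φ, IsIso 𝒜 ℬ φ

/-! ### The points of the axis as terms in two generators -/

theorem proj1_subset (S : Set (ℝ × ℝ)) : proj1 S ⊆ axisX := fun _ h => h.1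

theorem proj2_subset (S : Set (ℝ × ℝ)) : proj2 S ⊆ axisY := fun _ h => h.1

/-- one step of the recursion -/
def stp (R S a : Set (ℝ × ℝ)) : Set (ℝ × ℝ) :=
  proj1 (S ∩ dprod (proj1 Set.univ) (proj2 (R ∩ dprod a (proj2 Set.univ))))

/-- the sequence of terms -/
def pt (R S : Set (ℝ × ℝ)) : ℕ → Set (ℝ × ℝ)
  | 0 => proj1 Set.univ ∩ proj2 Set.univ
  | n + 1 => stp R S (pt R S n)

theorem pt_subset (R S : Set (ℝ × ℝ)) (n : ℕ) : pt R S n ⊆ axisX := by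
  cases n with
  | zero => exact fun p hp => proj1_subset _ hp.1
  | succ n => exact proj1_subset _

theorem univ_mem {𝒜 : Set (Set (ℝ × ℝ))} (h : IsProjectiveAlgebra 𝒜) : Set.univ ∈ 𝒜 := by
  obtain ⟨A, hA⟩ := h.nonempty
  rw [← Set.union_compl_self A]
  exact h.union _ hA _ (h.compl _ hA)

theorem pt_mem {𝒜 : Set (Set (ℝ × ℝ))} (h : IsProjectiveAlgebra 𝒜) {R S : Set (ℝ × ℝ)}
    (hR : R ∈ 𝒜) (hS : S ∈ 𝒜) (n : ℕ) : pt R S n ∈ 𝒜 := by
  have hu := univ_mem h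
  induction n with
  | zero => exact h.inter _ (h.proj1_mem _ hu) _ (h.proj2_mem _ hu)
  | succ n ih =>
    refine h.proj1_mem _ (h.inter _ hS _ (h.dprod_mem _ (h.proj1_mem _ hu) _ (h.proj2_mem _ (h.inter _ hR _
      (h.dprod_mem _ ih _ (h.proj2_mem _ hu) (pt_subset R S n) (proj2_subset _)))) (proj1_subset _)
      (proj2_subset _)))

theorem map_univ {𝒜 ℬ : Set (Set (ℝ × ℝ))} (h : IsProjectiveAlgebra 𝒜) {φ} (hφ : IsIso 𝒜 ℬ φ) :
    φ Set.univ = Set.univ := by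
  obtain ⟨A, hA⟩ := h.nonempty
  have h1 := hφ.union _ hA _ (h.compl _ hA)
  rwa [hφ.compl _ hA, Set.union_compl_self, Set.union_compl_self] at h1

theorem map_pt {𝒜 ℬ : Set (Set (ℝ × ℝ))} (h : IsProjectiveAlgebra 𝒜) {φ} (hφ : IsIso 𝒜 ℬ φ)
    {R S : Set (ℝ × ℝ)} (hR : R ∈ 𝒜) (hS : S ∈ 𝒜) (n : ℕ) :
    φ (pt R S n) = pt (φ R) (φ S) n := by
  have hu := univ_mem h
  have hmu := map_univ h hφ
  induction n with
  | zero =>
    show φ (proj1 Set.univ ∩ proj2 Set.univ) = proj1 Set.univ ∩ proj2 Set.univ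
    rw [hφ.inter _ (h.proj1_mem _ hu) _ (h.proj2_mem _ hu), hφ.map_proj1 _ hu, hφ.map_proj2 _ hu, hmu]
  | succ n ih =>
    have m1 := h.dprod_mem _ (pt_mem h hR hS n) _ (h.proj2_mem _ hu) (pt_subset R S n) (proj2_subset _)
    have m2 := h.inter _ hR _ m1
    have m3 := h.proj2_mem _ m2
    have m4 := h.dprod_mem _ (h.proj1_mem _ hu) _ m3 (proj1_subset _) (proj2_subset _)
    have m5 := h.inter _ hS _ m4
    show φ (stp R S (pt R S n)) = stp (φ R) (φ S) (pt (φ R) (φ S) n)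
    unfold stp
    rw [hφ.map_proj1 _ m5, hφ.inter _ hS _ m4, hφ.map_dprod _ (h.proj1_mem _ hu) _ m3 (proj1_subset _)
      (proj2_subset _), hφ.map_proj1 _ hu, hφ.map_proj2 _ m2, hφ.inter _ hR _ m1,
      hφ.map_dprod _ (pt_mem h hR hS n) _ (h.proj2_mem _ hu) (pt_subset R S n) (proj2_subset _),
      hφ.map_proj2 _ hu, hmu, ih]

/-! ### The algebras generated by three sets -/

/-- terms in three generators -/
inductive Tm : Type
  | gen : Fin 3 → Tm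
  | union : Tm → Tm → Tm
  | inter : Tm → Tm → Tm
  | compl : Tm → Tm
  | p1 : Tm → Tm
  | p2 : Tm → Tm
  | pr : Tm → Tm → Tm

/-- an injective code of the terms by lists of natural numbers -/
def Tm.code : Tm → List ℕ
  | .gen i => [0, i.val]
  | .union s t => 1 :: s.code.length :: (s.code ++ t.code)
  | .inter s t => 2 :: s.code.length :: (s.code ++ t.code)
  | .compl s => 3 :: s.code
  | .p1 s => 4 :: s.code
  | .p2 s => 5 :: s.code
  | .pr s t => 6 :: s.code.length :: (s.code ++ t.code)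

theorem Tm.code_injective : Function.Injective Tm.code := by
  intro s
  induction s with
  | gen i =>
    intro t h
    cases t <;> simp [Tm.code] at h
    rename_i j
    rw [Fin.ext h]
  | union s₁ s₂ h₁ h₂ =>
    intro t h
    cases t <;> simp [Tm.code] at h
    obtain ⟨h0, h⟩ := h
    obtain ⟨ha, hb⟩ := List.append_inj h h0
    rw [h₁ ha, h₂ hb]
  | inter s₁ s₂ h₁ h₂ =>
    intro t h
    cases t <;> simp [Tm.code] at h
    obtain ⟨h0, h⟩ := h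
    obtain ⟨ha, hb⟩ := List.append_inj h h0
    rw [h₁ ha, h₂ hb]
  | compl s h₁ =>
    intro t h
    cases t <;> simp [Tm.code] at h
    rw [h₁ h]
  | p1 s h₁ =>
    intro t h
    cases t <;> simp [Tm.code] at h
    rw [h₁ h]
  | p2 s h₁ =>
    intro t h
    cases t <;> simp [Tm.code] at h
    rw [h₁ h]
  | pr s₁ s₂ h₁ h₂ =>
    intro t h
    cases t <;> simp [Tm.code] at h
    obtain ⟨h0, h⟩ := h
    obtain ⟨ha, hb⟩ := List.append_inj h h0
    rw [h₁ ha, h₂ hb]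

instance : Countable Tm := Tm.code_injective.countable

/-- the value of a term -/
def Tm.eval (g : Fin 3 → Set (ℝ × ℝ)) : Tm → Set (ℝ × ℝ)
  | .gen i => g i
  | .union s t => s.eval g ∪ t.eval g
  | .inter s t => s.eval g ∩ t.eval g
  | .compl s => (s.eval g)ᶜ
  | .p1 s => proj1 (s.eval g)
  | .p2 s => proj2 (s.eval g)
  | .pr s t => dprod (s.eval g) (t.eval g)

/-- the algebra generated by three sets -/
def alg (g : Fin 3 → Set (ℝ × ℝ)) : Set (Set (ℝ × ℝ)) := Set.range (Tm.eval g)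

theorem alg_isProjectiveAlgebra (g : Fin 3 → Set (ℝ × ℝ)) : IsProjectiveAlgebra (alg g) where
  nonempty := ⟨_, Tm.gen 0, rfl⟩
  union := by
    rintro _ ⟨s, rfl⟩ _ ⟨t, rfl⟩
    exact ⟨.union s t, rfl⟩
  inter := by
    rintro _ ⟨s, rfl⟩ _ ⟨t, rfl⟩
    exact ⟨.inter s t, rfl⟩
  compl := by
    rintro _ ⟨s, rfl⟩
    exact ⟨.compl s, rfl⟩
  proj1_mem := by
    rintro _ ⟨s, rfl⟩
    exact ⟨.p1 s, rfl⟩
  proj2_mem := by
    rintro _ ⟨s, rfl⟩
    exact ⟨.p2 s, rfl⟩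
  dprod_mem := by
    rintro _ ⟨s, rfl⟩ _ ⟨t, rfl⟩ _ _
    exact ⟨.pr s t, rfl⟩

theorem alg_countable (g : Fin 3 → Set (ℝ × ℝ)) : (alg g).Countable := Set.countable_range _

/-! ### The coded sets of natural numbers -/

/-- the graph of `x ↦ x + 1` -/
def RR : Set (ℝ × ℝ) := {p | p.2 = p.1 + 1}

/-- the graph of the identity -/
def SS : Set (ℝ × ℝ) := {p | p.2 = p.1}

/-- the points `(n, 0)`, `n ∈ Z` -/
def TT (Z : Set ℕ) : Set (ℝ × ℝ) := {p | ∃ n ∈ Z, p = ((n : ℝ), (0 : ℝ))}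

theorem pt_eq (n : ℕ) : pt RR SS n = {((n : ℝ), (0 : ℝ))} := by
  induction n with
  | zero =>
    ext ⟨x, y⟩
    simp only [pt, proj1, proj2, Set.mem_inter_iff, Set.mem_ofPred_eq, Set.mem_univ, exists_const,
      and_true, Set.mem_singleton_iff, Prod.mk.injEq, Nat.cast_zero]
    tauto
  | succ n ih =>
    show stp RR SS (pt RR SS n) = _
    rw [ih]
    ext ⟨x, y⟩
    simp only [stp, proj1, proj2, dprod, RR, SS, Set.mem_inter_iff, Set.mem_ofPred_eq, Set.mem_univ,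
      exists_const, and_true, true_and, Set.mem_singleton_iff, Prod.mk.injEq, Nat.cast_add,
      Nat.cast_one]
    constructor
    · rintro ⟨hy, z, hz, x', h1, h2⟩
      refine ⟨?_, hy⟩
      linarith
    · rintro ⟨hx, hy⟩
      exact ⟨hy, x, rfl, n, by linarith, rfl⟩

/-- the set of natural numbers coded by a triple of plane sets -/
def decode (t : Set (ℝ × ℝ) × Set (ℝ × ℝ) × Set (ℝ × ℝ)) : Set ℕ :=
  {n | pt t.1 t.2.1 n ∩ t.2.2 ≠ ∅}

theorem decode_eq (Z : Set ℕ) : decode (RR, SS, TT Z) = Z := by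
  ext n
  simp only [decode, Set.mem_ofPred_eq, pt_eq]
  rw [← Set.nonempty_iff_ne_empty, Set.singleton_inter_nonempty]
  constructor
  · rintro ⟨m, hm, h⟩
    simp only [Prod.mk.injEq, Nat.cast_inj, and_true] at h
    rwa [h]
  · intro h
    exact ⟨n, h, rfl⟩

/-- An isomorphism preserves the coded set. -/
theorem decode_map {𝒜 ℬ : Set (Set (ℝ × ℝ))} (h : IsProjectiveAlgebra 𝒜) {φ}
    (hφ : IsIso 𝒜 ℬ φ) {R S T : Set (ℝ × ℝ)} (hR : R ∈ 𝒜) (hS : S ∈ 𝒜) (hT : T ∈ 𝒜) :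
    decode (φ R, φ S, φ T) = decode (R, S, T) := by
  have hu := univ_mem h
  have he : (∅ : Set (ℝ × ℝ)) ∈ 𝒜 := by
    rw [← Set.compl_univ]; exact h.compl _ hu
  have hme : φ ∅ = ∅ := by
    rw [← Set.compl_univ, hφ.compl _ hu, map_univ h hφ]
  ext n
  simp only [decode, Set.mem_ofPred_eq]
  have hp := pt_mem h hR hS n
  rw [← map_pt h hφ hR hS n, ← hφ.inter _ hp _ hT, not_iff_not]
  constructor
  · intro h1
    exact hφ.bij.injOn (h.inter _ hp _ hT) he (h1.trans hme.symm)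
  · intro h1
    rw [h1, hme]

/-- **There is no universal countable projective algebra of plane sets**: there is no countable
projective algebra `𝒰` such that every countable projective algebra is isomorphic to a subalgebra
of `𝒰`. -/
theorem result : ¬ ∃ 𝒰 : Set (Set (ℝ × ℝ)), IsProjectiveAlgebra 𝒰 ∧ 𝒰.Countable ∧
    ∀ 𝒜 : Set (Set (ℝ × ℝ)), IsProjectiveAlgebra 𝒜 → 𝒜.Countable → Embeds 𝒜 𝒰 := by
  rintro ⟨𝒰, -, hc, h⟩
  have hsub : (Set.univ : Set (Set ℕ)) ⊆ decode '' (𝒰 ×ˢ 𝒰 ×ˢ 𝒰) := by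
    intro Z _
    have halg := alg_isProjectiveAlgebra ![RR, SS, TT Z]
    obtain ⟨ℬ, hB, -, φ, hφ⟩ := h _ halg (alg_countable _)
    have hR : RR ∈ alg ![RR, SS, TT Z] := ⟨.gen 0, rfl⟩
    have hS : SS ∈ alg ![RR, SS, TT Z] := ⟨.gen 1, rfl⟩
    have hT : TT Z ∈ alg ![RR, SS, TT Z] := ⟨.gen 2, rfl⟩
    refine ⟨(φ RR, φ SS, φ (TT Z)), ⟨hB (hφ.bij.mapsTo hR), hB (hφ.bij.mapsTo hS),
      hB (hφ.bij.mapsTo hT)⟩, ?_⟩
    rw [decode_map halg hφ hR hS hT, decode_eq]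
  have hcount : (Set.univ : Set (Set ℕ)).Countable :=
    ((hc.prod (hc.prod hc)).image _).mono hsub
  have h1 : Countable (Set ℕ) := Set.countable_univ_iff.1 hcount
  obtain ⟨f, hf⟩ := exists_injective_nat (Set ℕ)
  exact Function.cantor_injective f hf

end Pool.Agent.Results.MP_3db952_lc.NoUniversal
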